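import Pool.Agent.H79.GT.Targets

/-! Row DER of the board `bq_modules`: the tent average. -/

set_option autoImplicit false

namespace Pool.Agent.H11.BQ

open MeasureTheory Set Filter Topology Pool.Agent.H79.GT

/-- The tent kernel. -/
noncomputable def tk (A x y : ℝ) : ℝ := max 0 (A - |y - x|) / A ^ 2

theorem tk_nonneg (A x y : ℝ) : 0 ≤ tk A x y :=
  div_nonneg (le_max_left _ _) (sq_nonneg _)

theorem tk_zero {A x y : ℝ} (h : A ≤ |y - x|) : tk A x y = 0 := by
  unfold tk
  rw [max_eq_left (by linarith), zero_div]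

theorem tk_le {A x y : ℝ} (hA : 0 < A) : tk A x y ≤ A⁻¹ := by
  unfold tk
  have h1 : max 0 (A - |y - x|) ≤ A := max_le hA.le (by linarith [abs_nonneg (y - x)])
  calc max 0 (A - |y - x|) / A ^ 2 ≤ A / A ^ 2 := by gcongr
    _ = A⁻¹ := by field_simp

theorem tk_cont (A x : ℝ) : Continuous (fun y => tk A x y) := by
  unfold tk
  fun_prop

theorem tk_integrable {A : ℝ} (hA : 0 < A) (x : ℝ) : Integrable (fun y => tk A x y) := by
  have h1 : IntegrableOn (fun _ : ℝ => A⁻¹) (Ioo (x - A) (x + A)) := by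
    refine integrableOn_const ?_
    simp
  refine (h1.integrable_indicator measurableSet_Ioo).mono' (tk_cont A x).aestronglyMeasurable
    (Eventually.of_forall fun y => ?_)
  rw [Real.norm_eq_abs, abs_of_nonneg (tk_nonneg A x y)]
  by_cases hy : y ∈ Ioo (x - A) (x + A)
  · rw [indicator_of_mem hy]
    exact tk_le hA
  · rw [indicator_of_notMem hy]
    refine (tk_zero ?_).le
    by_contra hc
    rw [not_le, abs_lt] at hc
    exact hy ⟨by linarith [hc.1], by linarith [hc.2]⟩

theorem subst {E : Type} [NormedAddCommGroup E] [NormedSpace ℝ E] (G : ℝ → E) (x : ℝ) {A : ℝ}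
    (hA : 0 < A) : ∫ v, G (x + A * v) = A⁻¹ • ∫ y, G y := by
  have h1 := Measure.integral_comp_mul_left (fun z => G (x + z)) A
  rw [h1, integral_add_left_eq_self G x, abs_of_pos (inv_pos.2 hA)]

theorem tent_one : ∫ v in Ioo (-1 : ℝ) 1, (1 - |v|) = 1 := by
  rw [← integral_Ioc_eq_integral_Ioo, ← intervalIntegral.integral_of_le (by norm_num)]
  have hc : ∀ a b : ℝ, IntervalIntegrable (fun v : ℝ => 1 - |v|) volume a b := fun a b =>
    (by fun_prop : Continuous fun v : ℝ => 1 - |v|).intervalIntegrable a b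
  rw [← intervalIntegral.integral_add_adjacent_intervals (hc (-1) 0) (hc 0 1)]
  have h1 : ∫ v in (-1 : ℝ)..0, (1 - |v|) = ∫ v in (-1 : ℝ)..0, (1 + v) := by
    refine intervalIntegral.integral_congr fun v hv => ?_
    rw [uIcc_of_le (by norm_num)] at hv
    have h0 := hv.2
    show 1 - |v| = 1 + v
    rw [abs_of_nonpos h0]
    ring
  have h2 : ∫ v in (0 : ℝ)..1, (1 - |v|) = ∫ v in (0 : ℝ)..1, (1 - v) := by
    refine intervalIntegral.integral_congr fun v hv => ?_
    rw [uIcc_of_le (by norm_num)] at hv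
    have h0 := hv.1
    show 1 - |v| = 1 - v
    rw [abs_of_nonneg h0]
  rw [h1, h2, intervalIntegral.integral_add, intervalIntegral.integral_sub]
  · simp only [intervalIntegral.integral_const, integral_id, smul_eq_mul]
    norm_num
  all_goals first
    | exact continuous_const.intervalIntegrable _ _
    | exact continuous_id.intervalIntegrable _ _

theorem ind_tent {v : ℝ} (hv : v ∉ Ioo (-1 : ℝ) 1) : max 0 (1 - |v|) = 0 := by
  refine max_eq_left ?_
  by_contra hc
  rw [not_le] at hc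
  have : |v| < 1 := by linarith
  rw [abs_lt] at this
  exact hv this

theorem ind_tent' {v : ℝ} (hv : v ∈ Ioo (-1 : ℝ) 1) : max 0 (1 - |v|) = 1 - |v| := by
  refine max_eq_right ?_
  have : |v| < 1 := abs_lt.2 hv
  linarith

theorem tk_at {A : ℝ} (hA : 0 < A) (x v : ℝ) : tk A x (x + A * v) = A⁻¹ * max 0 (1 - |v|) := by
  unfold tk
  have h1 : |x + A * v - x| = A * |v| := by
    rw [add_sub_cancel_left, abs_mul, abs_of_pos hA]
  rw [h1]
  have h2 : A - A * |v| = A * (1 - |v|) := by ring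
  rw [h2]
  have h3 : max 0 (A * (1 - |v|)) = A * max 0 (1 - |v|) := by
    rw [mul_max_of_nonneg _ _ hA.le, mul_zero]
  rw [h3]
  field_simp

theorem tk_int {A : ℝ} (hA : 0 < A) (x : ℝ) : ∫ y, tk A x y = 1 := by
  have h1 := subst (fun y => tk A x y) x hA
  simp only [tk_at hA, smul_eq_mul] at h1
  rw [integral_const_mul] at h1
  have h2 : ∫ v : ℝ, max 0 (1 - |v|) = 1 := by
    refine Eq.trans ?_ tent_one
    rw [← integral_indicator measurableSet_Ioo]
    congr 1
    ext v
    by_cases hv : v ∈ Ioo (-1 : ℝ) 1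
    · rw [indicator_of_mem hv, ind_tent' hv]
    · rw [indicator_of_notMem hv, ind_tent hv]
  rw [h2] at h1
  have h3 : A⁻¹ ≠ 0 := inv_ne_zero hA.ne'
  exact (mul_left_cancel₀ h3 h1).symm

theorem av_eq (R : ℝ → ℝ) (φ : ℝ → ℂ) (x : ℝ) (hx : 0 < R x) :
    av R φ x = ∫ y, ((tk (R x / 2) x y : ℝ) : ℂ) * φ y := by
  have hA : 0 < R x / 2 := by linarith
  have h1 := subst (fun y => ((tk (R x / 2) x y : ℝ) : ℂ) * φ y) x hA
  simp only [tk_at hA] at h1
  have h2 : ∫ v : ℝ, (((R x / 2)⁻¹ * max 0 (1 - |v|) : ℝ) : ℂ) * φ (x + R x / 2 * v) =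
      (R x / 2)⁻¹ • av R φ x := by
    unfold av
    rw [← integral_indicator measurableSet_Ioo, ← integral_smul]
    congr 1
    ext v
    by_cases hv : v ∈ Ioo (-1 : ℝ) 1
    · rw [indicator_of_mem hv, ind_tent' hv, Complex.real_smul]
      push_cast
      ring
    · rw [indicator_of_notMem hv, ind_tent hv]
      simp
  rw [h2] at h1
  exact smul_right_injective ℂ (inv_ne_zero hA.ne') h1

theorem tk_diff {A A' x x' : ℝ} (hA : 0 < A) (hAA : |A - A'| ≤ |x' - x| / 2)
    (hd : |x' - x| ≤ A / 4) (y : ℝ) : |tk A' x' y - tk A x y| ≤ 4 * |x' - x| / A ^ 2 := by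
  set d := |x' - x| with hdd
  have hd0 : 0 ≤ d := abs_nonneg _
  have hA1 := (abs_le.1 hAA)
  have hA'1 : 7 / 8 * A ≤ A' := by linarith [hA1.2]
  have hA'2 : A' ≤ 9 / 8 * A := by linarith [hA1.1]
  have hA' : 0 < A' := by linarith
  unfold tk
  set N := max 0 (A - |y - x|) with hN
  set N' := max 0 (A' - |y - x'|) with hN'
  have hN0 : 0 ≤ N := le_max_left _ _
  have hNA : N ≤ A := max_le hA.le (by linarith [abs_nonneg (y - x)])
  have hNN : |N' - N| ≤ 3 / 2 * d := by
    have h1 : |N' - N| ≤ |(A' - |y - x'|) - (A - |y - x|)| := by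
      rw [hN, hN', max_comm 0, max_comm 0]
      exact abs_max_sub_max_le_abs _ _ _
    have h2 : |(A' - |y - x'|) - (A - |y - x|)| ≤ |A' - A| + |(|y - x| - |y - x'|)| := by
      have : (A' - |y - x'|) - (A - |y - x|) = (A' - A) + (|y - x| - |y - x'|) := by ring
      rw [this]
      exact abs_add_le _ _
    have h3 : |(|y - x| - |y - x'|)| ≤ d := by
      refine (abs_abs_sub_abs_le_abs_sub _ _).trans ?_
      rw [hdd]
      refine le_of_eq ?_
      congr 1
      ring
    have h4 : |A' - A| ≤ d / 2 := by rwa [abs_sub_comm]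
    linarith
  have hkey : N' / A' ^ 2 - N / A ^ 2 = ((N' - N) * A ^ 2 + N * (A ^ 2 - A' ^ 2)) / (A ^ 2 * A' ^ 2) := by
    field_simp
    ring
  rw [hkey, abs_div, abs_of_pos (by positivity : (0 : ℝ) < A ^ 2 * A' ^ 2), div_le_div_iff₀ (by positivity)
    (by positivity)]
  have h5 : |(N' - N) * A ^ 2 + N * (A ^ 2 - A' ^ 2)| ≤ 3 / 2 * d * A ^ 2 + A * (d / 2 * (17 / 8 * A)) := by
    refine (abs_add_le _ _).trans (add_le_add ?_ ?_)
    · rw [abs_mul, abs_of_nonneg (sq_nonneg A)]
      exact mul_le_mul_of_nonneg_right hNN (sq_nonneg A)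
    · rw [abs_mul, abs_of_nonneg hN0]
      have h6 : |A ^ 2 - A' ^ 2| ≤ d / 2 * (17 / 8 * A) := by
        have : A ^ 2 - A' ^ 2 = (A - A') * (A + A') := by ring
        rw [this, abs_mul]
        refine mul_le_mul hAA ?_ (abs_nonneg _) (by linarith)
        rw [abs_of_pos (by linarith)]
        linarith
      exact mul_le_mul hNA h6 (abs_nonneg _) hA.le
  have h7 : A ^ 2 ≤ 64 / 49 * A' ^ 2 := by nlinarith
  have h8 : 3 / 2 * d * A ^ 2 + A * (d / 2 * (17 / 8 * A)) = 41 / 16 * d * A ^ 2 := by ring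
  have h9 : 41 / 16 * d * A ^ 2 ≤ 4 * d * A' ^ 2 := by
    have : 41 / 16 * d * A ^ 2 ≤ 41 / 16 * d * (64 / 49 * A' ^ 2) :=
      mul_le_mul_of_nonneg_left h7 (by positivity)
    have h10 : 0 ≤ d * A' ^ 2 := by positivity
    linarith
  have h11 : |(N' - N) * A ^ 2 + N * (A ^ 2 - A' ^ 2)| ≤ 4 * d * A' ^ 2 := by linarith
  calc |(N' - N) * A ^ 2 + N * (A ^ 2 - A' ^ 2)| * A ^ 2 ≤ 4 * d * A' ^ 2 * A ^ 2 :=
        mul_le_mul_of_nonneg_right h11 (sq_nonneg A)
    _ = 4 * d * (A ^ 2 * A' ^ 2) := by ring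

theorem tk_diff_zero {A A' x x' y : ℝ} (hA : 0 < A) (hAA : |A - A'| ≤ |x' - x| / 2)
    (hd : |x' - x| ≤ A / 4) (hy : y ∉ Ioo (x - 3 / 2 * A) (x + 3 / 2 * A)) :
    tk A' x' y - tk A x y = 0 := by
  have h0 : 3 / 2 * A ≤ |y - x| := by
    by_contra hc
    rw [not_le, abs_lt] at hc
    exact hy ⟨by linarith [hc.1], by linarith [hc.2]⟩
  have h1 : tk A x y = 0 := tk_zero (by linarith)
  have h2 : tk A' x' y = 0 := by
    refine tk_zero ?_
    have h3 : |y - x| ≤ |y - x'| + |x' - x| := by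
      have : y - x = (y - x') + (x' - x) := by ring
      rw [this]
      exact abs_add_le _ _
    have h4 := (abs_le.1 hAA).1
    linarith
  rw [h1, h2, sub_zero]

theorem h_int {φ : ℝ → ℂ} (hφ : Measurable φ) (hb : ∀ x, ‖φ x‖ ≤ 1) (c : ℂ) (a b : ℝ) :
    IntegrableOn (fun y => ‖φ y - c‖) (Ioo a b) := by
  refine Measure.integrableOn_of_bounded (M := 1 + ‖c‖) (by simp)
    (hφ.sub_const c).norm.aestronglyMeasurable (Eventually.of_forall fun y => ?_)
  rw [norm_norm]
  exact (norm_sub_le _ _).trans (by linarith [hb y])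

theorem k_int {φ : ℝ → ℂ} (hφ : Measurable φ) (hb : ∀ x, ‖φ x‖ ≤ 1) {A : ℝ} (hA : 0 < A) (x : ℝ) :
    Integrable (fun y => ((tk A x y : ℝ) : ℂ) * φ y) := by
  refine (tk_integrable hA x).mono' ?_ (Eventually.of_forall fun y => ?_)
  · exact ((Complex.measurable_ofReal.comp (tk_cont A x).measurable).mul hφ).aestronglyMeasurable
  · rw [norm_mul, Complex.norm_real, Real.norm_eq_abs, abs_of_nonneg (tk_nonneg A x y)]
    exact mul_le_of_le_one_right (tk_nonneg A x y) (hb y)

theorem k_int_c {A : ℝ} (hA : 0 < A) (x : ℝ) (c : ℂ) :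
    Integrable (fun y => ((tk A x y : ℝ) : ℂ) * c) :=
  ((tk_integrable hA x).ofReal).mul_const c

theorem k_one_c {A : ℝ} (hA : 0 < A) (x : ℝ) (c : ℂ) :
    ∫ y, ((tk A x y : ℝ) : ℂ) * c = c := by
  rw [integral_mul_const]
  have h1 : ∫ y, ((tk A x y : ℝ) : ℂ) = ((∫ y, tk A x y : ℝ) : ℂ) := integral_ofReal
  rw [h1, tk_int hA x]
  simp

theorem pf_DER : T_DER := by
  intro R hR φ hφ hb x hx
  have hA : 0 < R x / 2 := by linarith
  refine ⟨?_, fun c => ⟨?_, fun x' hx' => ?_⟩⟩
  · rw [av_eq R φ x hx]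
    refine (norm_integral_le_of_norm_le (tk_integrable hA x)
      (Eventually.of_forall fun y => ?_)).trans (tk_int hA x).le
    rw [norm_mul, Complex.norm_real, Real.norm_eq_abs, abs_of_nonneg (tk_nonneg _ x y)]
    exact mul_le_of_le_one_right (tk_nonneg _ x y) (hb y)
  · have h1 : av R φ x - c = ∫ y, ((tk (R x / 2) x y : ℝ) : ℂ) * (φ y - c) := by
      rw [av_eq R φ x hx]
      conv_lhs => rw [← k_one_c hA x c]
      rw [← integral_sub (k_int hφ hb hA x) (k_int_c hA x c)]
      congr 1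
      ext y
      ring
    rw [h1]
    have hI := h_int hφ hb c (x - 3 / 4 * R x) (x + 3 / 4 * R x)
    have h2 : Integrable ((Ioo (x - 3 / 4 * R x) (x + 3 / 4 * R x)).indicator
        (fun y => (R x / 2)⁻¹ * ‖φ y - c‖)) :=
      IntegrableOn.integrable_indicator (Integrable.const_mul hI _) measurableSet_Ioo
    refine (norm_integral_le_of_norm_le h2 (Eventually.of_forall fun y => ?_)).trans ?_
    · rw [norm_mul, Complex.norm_real, Real.norm_eq_abs, abs_of_nonneg (tk_nonneg _ x y)]
      by_cases hy : y ∈ Ioo (x - 3 / 4 * R x) (x + 3 / 4 * R x)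
      · rw [indicator_of_mem hy]
        exact mul_le_mul_of_nonneg_right (tk_le hA) (norm_nonneg _)
      · rw [indicator_of_notMem hy]
        have : tk (R x / 2) x y = 0 := by
          refine tk_zero ?_
          by_contra hc
          rw [not_le, abs_lt] at hc
          exact hy ⟨by linarith [hc.1], by linarith [hc.2]⟩
        rw [this, zero_mul]
    · rw [integral_indicator measurableSet_Ioo, integral_const_mul]
      unfold fa
      refine le_of_eq ?_
      rw [inv_div]
      ring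
  · have hRR := hR x' x
    have hx'0 : 0 < R x' := by
      have := (abs_le.1 hRR).1
      linarith
    have hA' : 0 < R x' / 2 := by linarith
    have h1 : ∀ z, 0 < R z → av R φ z - c = ∫ y, ((tk (R z / 2) z y : ℝ) : ℂ) * (φ y - c) := by
      intro z hz
      have hz2 : 0 < R z / 2 := by linarith
      rw [av_eq R φ z hz]
      conv_lhs => rw [← k_one_c hz2 z c]
      rw [← integral_sub (k_int hφ hb hz2 z) (k_int_c hz2 z c)]
      congr 1
      ext y
      ring
    have h1i : ∀ z, 0 < R z → Integrable (fun y => ((tk (R z / 2) z y : ℝ) : ℂ) * (φ y - c)) := by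
      intro z hz
      have hz2 : 0 < R z / 2 := by linarith
      have := (k_int hφ hb hz2 z).sub (k_int_c hz2 z c)
      refine this.congr (Eventually.of_forall fun y => ?_)
      simp only [Pi.sub_apply]
      ring
    have h2 : av R φ x' - av R φ x =
        ∫ y, (((tk (R x' / 2) x' y - tk (R x / 2) x y : ℝ)) : ℂ) * (φ y - c) := by
      have : av R φ x' - av R φ x = (av R φ x' - c) - (av R φ x - c) := by ring
      rw [this, h1 x' hx'0, h1 x hx, ← integral_sub (h1i x' hx'0) (h1i x hx)]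
      congr 1
      ext y
      push_cast
      ring
    rw [h2]
    have hI := h_int hφ hb c (x - 3 / 4 * R x) (x + 3 / 4 * R x)
    have h3 : Integrable ((Ioo (x - 3 / 4 * R x) (x + 3 / 4 * R x)).indicator
        (fun y => (4 * |x' - x| / (R x / 2) ^ 2) * ‖φ y - c‖)) :=
      IntegrableOn.integrable_indicator (Integrable.const_mul hI _) measurableSet_Ioo
    have hAA : |R x / 2 - R x' / 2| ≤ |x' - x| / 2 := by
      have : R x / 2 - R x' / 2 = -((R x' - R x) / 2) := by ring
      rw [this, abs_neg, abs_div, abs_of_pos (by norm_num : (0 : ℝ) < 2)]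
      linarith
    have hd : |x' - x| ≤ R x / 2 / 4 := by linarith
    refine (norm_integral_le_of_norm_le h3 (Eventually.of_forall fun y => ?_)).trans ?_
    · rw [norm_mul, Complex.norm_real, Real.norm_eq_abs]
      by_cases hy : y ∈ Ioo (x - 3 / 4 * R x) (x + 3 / 4 * R x)
      · rw [indicator_of_mem hy]
        exact mul_le_mul_of_nonneg_right (tk_diff hA hAA hd y) (norm_nonneg _)
      · rw [indicator_of_notMem hy]
        have : tk (R x' / 2) x' y - tk (R x / 2) x y = 0 := by
          refine tk_diff_zero hA hAA hd ?_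
          intro hc
          exact hy ⟨by linarith [hc.1], by linarith [hc.2]⟩
        rw [this, abs_zero, zero_mul]
    · rw [integral_indicator measurableSet_Ioo, integral_const_mul]
      unfold fa
      refine le_of_eq ?_
      field_simp
      ring

end Pool.Agent.H11.BQ
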